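import Pool.Agent.Lib.MP_994fee_co.TwG.Sel19

/-!
# Rows and columns to drop
-/

namespace Pool.Agent.Lib.MP_994fee_co.TwG

theorem exists_drop {α β : Type} [DecidableEq α] [DecidableEq β] (E : α → β → Prop)
    (h : ¬ ∃ (k : Fin 3 → α) (l : Fin 3 → β), Function.Injective k ∧ Function.Injective l ∧
      ∀ r, E (k r) (l r)) :
    ∃ (R : Finset α) (C : Finset β), R.card ≤ 2 ∧ C.card ≤ 2 ∧ ∀ x y, E x y → x ∈ R ∨ y ∈ C := by
  by_contra hcon
  push Not at hcon
  obtain ⟨k1, l1, h1, _, _⟩ := hcon ∅ ∅ (by simp) (by simp)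
  obtain ⟨k2, l2, h2, h2a, h2b⟩ := hcon {k1} {l1} (by simp) (by simp)
  obtain ⟨k3, l3, h3, h3a, h3b⟩ := hcon {k1, k2} {l1, l2} Finset.card_le_two Finset.card_le_two
  simp only [Finset.mem_singleton, Finset.mem_insert, not_or] at h2a h2b h3a h3b
  apply h
  refine ⟨![k1, k2, k3], ![l1, l2, l3], ?_, ?_, ?_⟩
  · intro i j hij
    fin_cases i <;> fin_cases j <;> simp_all
  · intro i j hij
    fin_cases i <;> fin_cases j <;> simp_all
  · intro r
    fin_cases r
    · exact h1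
    · exact h2
    · exact h3

/-- The candidates and, for blocks of at most `m` places on a line, a candidate that no place of
the block drops. -/
theorem exists_choice {S T : Type} [Fintype S] [Fintype T] (g s m : ℕ)
    (hS : Fintype.card S ≤ s) (hT : Fintype.card T ≤ s) (hs : 8 * (2 * m + 1) ^ 6 * g ^ 3 < s)
    (Bad : T → S → Fin s → Fin s → Prop)
    (hBad : ∀ τ c, ∀ F : Finset (Fin s × Fin s), (∀ p ∈ F, Bad τ c p.1 p.2) → F.card ≤ 2 * g * s) :
    ∃ (X : Finset T → S → Fin s) (Y : T → Finset S → Fin s),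
      ∀ (P : Finset T) (Q : Finset S), P.card ≤ m → Q.card ≤ m → ∀ τ ∈ P, ∀ c ∈ Q,
        ¬ Bad τ c (X P c) (Y τ Q) := by
  classical
  obtain ⟨x, y, hxy⟩ := exists_sel g s (2 * m + 1) hS hT hs Bad hBad
  have h1 : ∀ τ c, ∃ (R C : Finset (Fin (2 * m + 1))), R.card ≤ 2 ∧ C.card ≤ 2 ∧
      ∀ k l, Bad τ c (x c k) (y τ l) → k ∈ R ∨ l ∈ C := fun τ c =>
    exists_drop (fun k l => Bad τ c (x c k) (y τ l)) (hxy τ c)
  choose R C hR hC hRC using h1
  have hX : ∀ (P : Finset T) (c : S), ∃ k : Fin (2 * m + 1), P.card ≤ m → ∀ τ ∈ P, k ∉ R τ c := by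
    intro P c
    by_cases hP : P.card ≤ m
    · have h2 : (P.biUnion (fun τ => R τ c)).card < Fintype.card (Fin (2 * m + 1)) := by
        rw [Fintype.card_fin]
        calc _ ≤ ∑ τ ∈ P, (R τ c).card := Finset.card_biUnion_le
          _ ≤ ∑ _τ ∈ P, 2 := Finset.sum_le_sum (fun τ _ => hR τ c)
          _ = P.card * 2 := by rw [Finset.sum_const, smul_eq_mul]
          _ < 2 * m + 1 := by omega
      obtain ⟨k, hk⟩ : ∃ k, k ∉ P.biUnion (fun τ => R τ c) := by
        by_contra hcon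
        push Not at hcon
        rw [Finset.eq_univ_iff_forall.2 hcon, Finset.card_univ] at h2
        exact lt_irrefl _ h2
      refine ⟨k, fun _ τ hτ hk2 => hk ?_⟩
      exact Finset.mem_biUnion.2 ⟨τ, hτ, hk2⟩
    · exact ⟨0, fun h => absurd h hP⟩
  have hY : ∀ (τ : T) (Q : Finset S), ∃ k : Fin (2 * m + 1), Q.card ≤ m → ∀ c ∈ Q, k ∉ C τ c := by
    intro τ Q
    by_cases hQ : Q.card ≤ m
    · have h2 : (Q.biUnion (fun c => C τ c)).card < Fintype.card (Fin (2 * m + 1)) := by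
        rw [Fintype.card_fin]
        calc _ ≤ ∑ c ∈ Q, (C τ c).card := Finset.card_biUnion_le
          _ ≤ ∑ _c ∈ Q, 2 := Finset.sum_le_sum (fun c _ => hC τ c)
          _ = Q.card * 2 := by rw [Finset.sum_const, smul_eq_mul]
          _ < 2 * m + 1 := by omega
      obtain ⟨k, hk⟩ : ∃ k, k ∉ Q.biUnion (fun c => C τ c) := by
        by_contra hcon
        push Not at hcon
        rw [Finset.eq_univ_iff_forall.2 hcon, Finset.card_univ] at h2
        exact lt_irrefl _ h2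
      refine ⟨k, fun _ c hc hk2 => hk ?_⟩
      exact Finset.mem_biUnion.2 ⟨c, hc, hk2⟩
    · exact ⟨0, fun h => absurd h hQ⟩
  choose kX hkX using hX
  choose kY hkY using hY
  refine ⟨fun P c => x c (kX P c), fun τ Q => y τ (kY τ Q), ?_⟩
  intro P Q hP hQ τ hτ c hc hbad
  rcases hRC τ c _ _ hbad with h | h
  · exact hkX P c hP τ hτ h
  · exact hkY τ Q hQ c hc h

end Pool.Agent.Lib.MP_994fee_co.TwG
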