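import Pool.Agent.Lib.MP_994fee_co.TwG.Fin19

/-!
# The extension lemma with label blocks that are sets of colours
-/

namespace Pool.Agent.Lib.MP_994fee_co.TwG

open Finset

theorem exists_code {s : ℕ} (hs : 0 < s) (T : Finset ℕ) (hT : T.card ≤ s) :
    ∃ (e : ℕ → Fin s) (r : Fin s → ℕ), ∀ x ∈ T, r (e x) = x := by
  classical
  let e : ℕ → Fin s := fun x => if h : x ∈ T then Fin.castLE hT (T.equivFin ⟨x, h⟩) else ⟨0, hs⟩
  have he : ∀ x ∈ T, ∀ y ∈ T, e x = e y → x = y := by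
    intro x hx y hy h
    simp only [e, dif_pos hx, dif_pos hy] at h
    have h2 := T.equivFin.injective (Fin.castLE_injective hT h)
    exact congrArg Subtype.val h2
  let r : Fin s → ℕ := fun i => if h : ∃ x ∈ T, e x = i then h.choose else 0
  refine ⟨e, r, ?_⟩
  intro x hx
  have h : ∃ y ∈ T, e y = e x := ⟨x, hx, rfl⟩
  simp only [r, dif_pos h]
  exact he _ h.choose_spec.1 _ hx h.choose_spec.2

/-- The guesses of the new vertex. -/
abbrev KapN := ℕ → ℕ → Finset ℕ → Finset ℕ → Finset ℕ → Finset ℕ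

/-- The extension property. -/
def ExtP (g s q : ℕ) : Prop :=
  ∀ (T S : Finset ℕ) (κ : KapN), (∀ τ c A B N, (κ τ c A B N).card ≤ g) →
    ∃ (f : ℕ) (A : Finset ℕ → ℕ → Finset ℕ) (B : ℕ → Finset ℕ → Finset ℕ)
    (N : ℕ → Finset ℕ → ℕ → Finset ℕ → Finset ℕ), T.card ≤ s → S.card ≤ s → f < q ∧
    (∀ P c, (A P c).card ≤ s) ∧ (∀ τ Q, (B τ Q).card ≤ s) ∧
    ∀ τ P c Q, τ ∈ P → c ∈ Q → P ⊆ T → Q ⊆ S → P.card = g + 1 → Q.card = g + 1 →
      f ∈ N τ P c Q ∧ (N τ P c Q).card = g + 1 ∧ N τ P c Q ⊆ A P c ∧ N τ P c Q ⊆ B τ Q ∧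
        f ∉ κ τ c (A P c) (B τ Q) (N τ P c Q)

theorem exists_ext (g : ℕ) : ∃ q : ℕ, 0 < q ∧ ExtP g (bs g) q := by
  classical
  obtain ⟨q, hq, h⟩ := core_fin g
  refine ⟨q, hq, ?_⟩
  intro T S κ hκ
  by_cases hTS : T.card ≤ bs g ∧ S.card ≤ bs g
  · obtain ⟨hT, hS⟩ := hTS
    have hs : 0 < bs g := Nat.succ_pos _
    obtain ⟨e, r, her⟩ := exists_code hs T hT
    obtain ⟨e', r', her'⟩ := exists_code hs S hS
    obtain ⟨f, A, B, N, hf, hA, hB, hN⟩ := h (fun i j => κ (r i) (r' j))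
      (fun i j A B N => hκ _ _ _ _ _)
    refine ⟨f, fun P c => A (P.image e) (e' c), fun τ Q => B (e τ) (Q.image e'),
      fun τ P c Q => N (e τ) (P.image e) (e' c) (Q.image e'), fun _ _ => ⟨hf,
      fun P c => (hA _ _).1, fun τ Q => (hB _ _).1, ?_⟩⟩
    intro τ P c Q h1 h2 h3 h4 h5 h6
    have hinj : Set.InjOn e P := by
      intro x hx y hy hxy
      rw [← her x (h3 hx), ← her y (h3 hy), hxy]
    have hinj' : Set.InjOn e' Q := by
      intro x hx y hy hxy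
      rw [← her' x (h4 hx), ← her' y (h4 hy), hxy]
    have h7 := hN (e τ) (P.image e) (e' c) (Q.image e') (mem_image_of_mem e h1)
      (mem_image_of_mem e' h2) (by rw [Finset.card_image_of_injOn hinj, h5])
      (by rw [Finset.card_image_of_injOn hinj', h6])
    simp only [her τ (h3 h1), her' c (h4 h2)] at h7
    exact h7
  · exact ⟨0, fun _ _ => ∅, fun _ _ => ∅, fun _ _ _ _ => ∅, fun h1 h2 => absurd ⟨h1, h2⟩ hTS⟩

end Pool.Agent.Lib.MP_994fee_co.TwG
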