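import Pool.Agent.Lib.MP_994fee_co.TwG.Inf19

/-!
# The extension lemma for a finite palette (compactness)
-/

namespace Pool.Agent.Lib.MP_994fee_co.TwG

open Finset

theorem core_fin (g : ℕ) : ∃ q : ℕ, 0 < q ∧ ∀ κ : Kap (bs g),
    (∀ τ c A B N, (κ τ c A B N).card ≤ g) → Sol g (bs g) κ (fun z => z < q) := by
  classical
  by_contra hcon
  push Not at hcon
  have h1 : ∀ q : ℕ, ∃ κ : Kap (bs g), (∀ τ c A B N, (κ τ c A B N).card ≤ g) ∧
      ¬ Sol g (bs g) κ (fun z => z < q + 1) := fun q => hcon (q + 1) (Nat.succ_pos q)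
  choose K hK1 hK2 using h1
  let U : Ultrafilter ℕ := Filter.hyperfilter ℕ
  let κ : Kap (bs g) := fun τ c A B N => N.filter (fun x => ∀ᶠ q in (U : Filter ℕ), x ∈ K q τ c A B N)
  have hκ : ∀ τ c A B N, (κ τ c A B N).card ≤ g := by
    intro τ c A B N
    have h2 : ∀ᶠ q in (U : Filter ℕ), ∀ x ∈ κ τ c A B N, x ∈ K q τ c A B N := by
      rw [Filter.eventually_all_finset]
      intro x hx
      exact (mem_filter.1 hx).2
    obtain ⟨q, hq⟩ := h2.exists
    exact le_trans (Finset.card_le_card hq) (hK1 q τ c A B N)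
  obtain ⟨f, A, B, N, _, hA, hB, hN⟩ := core_inf g κ hκ
  have hU : ∀ m : ℕ, ∀ᶠ q in (U : Filter ℕ), m < q + 1 := by
    intro m
    have h3 : (Filter.hyperfilter ℕ : Filter ℕ) ≤ Filter.atTop := by
      rw [← Nat.cofinite_eq_atTop]
      exact Filter.hyperfilter_le_cofinite
    have h4 : ∀ᶠ q in (Filter.atTop : Filter ℕ), m < q + 1 := by
      filter_upwards [Filter.eventually_ge_atTop m] with q hq
      omega
    exact h3 h4
  have e1 : ∀ᶠ q in (U : Filter ℕ), ∀ (P : Finset (Fin (bs g))) (c : Fin (bs g)), ∀ z ∈ A P c,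
      z < q + 1 := by
    rw [Filter.eventually_all]
    intro P
    rw [Filter.eventually_all]
    intro c
    rw [Filter.eventually_all_finset]
    exact fun z _ => hU z
  have e2 : ∀ᶠ q in (U : Filter ℕ), ∀ (τ : Fin (bs g)) (Q : Finset (Fin (bs g))), ∀ z ∈ B τ Q,
      z < q + 1 := by
    rw [Filter.eventually_all]
    intro τ
    rw [Filter.eventually_all]
    intro Q
    rw [Filter.eventually_all_finset]
    exact fun z _ => hU z
  have e3 : ∀ᶠ q in (U : Filter ℕ), ∀ (τ : Fin (bs g)) (P : Finset (Fin (bs g))) (c : Fin (bs g))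
      (Q : Finset (Fin (bs g))), τ ∈ P → c ∈ Q → P.card = g + 1 → Q.card = g + 1 →
      f ∉ K q τ c (A P c) (B τ Q) (N τ P c Q) := by
    rw [Filter.eventually_all]
    intro τ
    rw [Filter.eventually_all]
    intro P
    rw [Filter.eventually_all]
    intro c
    rw [Filter.eventually_all]
    intro Q
    by_cases h : τ ∈ P ∧ c ∈ Q ∧ P.card = g + 1 ∧ Q.card = g + 1
    · obtain ⟨h1, h2, h3, h4⟩ := h
      obtain ⟨h5, _, _, _, h9⟩ := hN τ P c Q h1 h2 h3 h4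
      have h10 : ¬ ∀ᶠ q in (U : Filter ℕ), f ∈ K q τ c (A P c) (B τ Q) (N τ P c Q) :=
        fun h => h9 (mem_filter.2 ⟨h5, h⟩)
      rw [← Ultrafilter.eventually_not] at h10
      filter_upwards [h10] with q hq _ _ _ _
      exact hq
    · filter_upwards with q h1 h2 h3 h4
      exact absurd ⟨h1, h2, h3, h4⟩ h
  obtain ⟨q, ⟨⟨hq1, hq2⟩, hq3⟩, hq4⟩ := (((e1.and e2).and e3).and (hU f)).exists
  apply hK2 q
  refine ⟨f, A, B, N, hq4, fun P c => ⟨(hA P c).1, hq1 P c⟩, fun τ Q => ⟨(hB τ Q).1, hq2 τ Q⟩, ?_⟩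
  intro τ P c Q h1 h2 h3 h4
  obtain ⟨h5, h6, h7, h8, _⟩ := hN τ P c Q h1 h2 h3 h4
  exact ⟨h5, h6, h7, h8, hq3 τ P c Q h1 h2 h3 h4⟩

end Pool.Agent.Lib.MP_994fee_co.TwG
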