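import Pool.Agent.Lib.MP_994fee_co.TwG.Game19
import Pool.Agent.Lib.MP_994fee_co.Two.Frame

/-!
# Treewidth two: every bounded number of guesses, and layered graphs
-/

namespace Pool.Agent.Lib.MP_994fee_co

open Finset TL

namespace TwG

/-- The structure of treewidth at most two on a set of vertices. -/
def TwOn {V : Type} (G : SimpleGraph V) (S : Finset V) : Prop :=
  ∃ (T : SimpleGraph V) (rk : V → ℕ), (∀ v ∈ S, ∀ w ∈ S, G.Adj v w → T.Adj v w) ∧
    Set.InjOn rk (S : Set V) ∧
    (∀ v ∈ S, ∀ W ⊆ S, (∀ w ∈ W, T.Adj v w ∧ rk w < rk v) → W.card ≤ 2) ∧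
    ∀ v ∈ S, ∀ w ∈ S, ∀ w' ∈ S, T.Adj v w → rk w < rk v → T.Adj v w' → rk w' < rk v →
      w ≠ w' → T.Adj w w'

theorem beat_all {V : Type} [DecidableEq V] {T : SimpleGraph V} {g q : ℕ}
    (hE : ExtP g (bs g) q) (rk : V → ℕ) (S : Finset V) (hinj : Set.InjOn rk (S : Set V))
    (hc : ∀ v ∈ S, ∀ W ⊆ S, (∀ w ∈ W, T.Adj v w ∧ rk w < rk v) → W.card ≤ 2)
    (hadj : ∀ v ∈ S, ∀ w ∈ S, ∀ w' ∈ S, T.Adj v w → rk w < rk v → T.Adj v w' → rk w' < rk v →
      w ≠ w' → T.Adj w w') : Beat T g (bs g) q S := by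
  classical
  induction S using Finset.induction_on_max_value rk with
  | empty =>
    intro h _ _
    exact ⟨⟨fun _ => 0, fun _ => ∅, fun _ _ => ∅⟩,
      ⟨fun v hv => absurd hv (notMem_empty v), fun v hv => absurd hv (notMem_empty v)⟩,
      fun v hv => absurd hv (notMem_empty v)⟩
  | insert z A hz hmax ih =>
    have hlt : ∀ v ∈ A, rk v < rk z := by
      intro v hv
      refine lt_of_le_of_ne (hmax v hv) ?_
      intro h
      have := hinj (by exact_mod_cast mem_insert_of_mem hv) (by exact_mod_cast mem_insert_self z A) h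
      exact hz (this ▸ hv)
    refine beat_insert hE hz (ih ?_ ?_ ?_) ?_ ?_
    · intro v hv w hw h
      exact hinj (by exact_mod_cast mem_insert_of_mem (by exact_mod_cast hv))
        (by exact_mod_cast mem_insert_of_mem (by exact_mod_cast hw)) h
    · intro v hv W hW
      exact hc v (mem_insert_of_mem hv) W (hW.trans (subset_insert z A))
    · intro v hv w hw w' hw'
      exact hadj v (mem_insert_of_mem hv) w (mem_insert_of_mem hw) w' (mem_insert_of_mem hw')
    · intro W hW hW2
      exact hc z (mem_insert_self z A) W (hW.trans (subset_insert z A))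
        (fun w hw => ⟨hW2 w hw, hlt w (hW hw)⟩)
    · intro x hx y hy hzx hzy hxy
      exact hadj z (mem_insert_self z A) x (mem_insert_of_mem hx) y (mem_insert_of_mem hy) hzx
        (hlt x hx) hzy (hlt y hy) hxy

theorem twOn_loses (s : ℕ) : ∃ q : ℕ, 0 < q ∧ ∀ {V : Type} (G : SimpleGraph V) (S : Finset V),
    TwOn G S → LosesOn G S s q := by
  classical
  obtain ⟨q, hq, hE⟩ := exists_ext s
  refine ⟨q, hq, ?_⟩
  rintro V G S ⟨T, rk, hGT, hinj, hc, hadj⟩ g hg hgs
  obtain ⟨σ, h1, h2⟩ := beat_all hE rk S hinj hc hadj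
    (fun v σ => if v ∈ S then g v σ.c else ∅)
    (by
      intro v hv σ σ' hL
      simp only [if_pos hv]
      apply hg v hv
      intro u hu hvu
      exact (hL.2 u hu (hGT v hv u hu hvu)).1)
    (by
      intro v σ
      by_cases hv : v ∈ S
      · simp only [if_pos hv]
        exact hgs v hv _
      · simp only [if_neg hv, card_empty]
        exact Nat.zero_le s)
  refine ⟨fun v => if v ∈ S then σ.c v else 0, ?_, ?_⟩
  · intro v
    by_cases hv : v ∈ S
    · simp only [if_pos hv]
      exact (h1.1 v hv).2.2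
    · simp only [if_neg hv]
      exact hq
  · intro v hv
    have h3 := h2 v hv
    simp only [if_pos hv] at h3 ⊢
    have h4 : g v (fun v => if v ∈ S then σ.c v else 0) = g v σ.c := by
      apply hg v hv
      intro u hu _
      simp only [if_pos hu]
    rw [h4]
    exact h3

lemma twLevels (n : ℕ) : ∀ M s : ℕ, ∃ q : ℕ, ∀ {V : Type} [Fintype V] [DecidableEq V]
    (G : SimpleGraph V) (X : Finset V) (lev : V → ℕ), (∀ v ∈ X, lev v < M) →
    (∀ v ∈ X, {w | w ∈ X ∧ G.Adj v w ∧ lev w < lev v}.ncard ≤ n) →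
    (∀ i, TwOn G (X.filter (fun v => lev v = i))) → LosesOn G X s q := by
  intro M
  induction M with
  | zero =>
    intro s
    refine ⟨1, ?_⟩
    intro V _ _ G X lev h1 _ _ g _ _
    exact ⟨fun _ => 0, fun _ => Nat.zero_lt_one, fun v hv => absurd (h1 v hv) (Nat.not_lt_zero _)⟩
  | succ M ih =>
    intro s
    obtain ⟨K₁, hK₁, hT⟩ := twOn_loses s
    obtain ⟨K₂, hK₂⟩ := ih (s * K₁ ^ n)
    refine ⟨max K₁ K₂, ?_⟩
    intro V _ _ G X lev h1 h2 h3
    have hsd : ∀ v, v ∈ X \ X.filter (fun v => lev v = 0) ↔ v ∈ X ∧ lev v ≠ 0 := by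
      intro v
      rw [Finset.mem_sdiff, Finset.mem_filter]
      tauto
    refine LosesOn.step (Y := X.filter (fun v => lev v = 0)) (Finset.filter_subset _ _)
      (B := n) ?_ hK₁ (hT G _ (h3 0)) ?_
    · intro x hx
      obtain ⟨hxX, hx0⟩ := (hsd x).1 hx
      refine le_trans (Set.ncard_le_ncard ?_ (Set.toFinite _)) (h2 x hxX)
      rintro w ⟨hw, hxw⟩
      have := Finset.mem_filter.1 hw
      exact ⟨this.1, hxw, by rw [this.2]; omega⟩
    · refine hK₂ G _ (fun v => lev v - 1) ?_ ?_ ?_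
      · intro v hv
        obtain ⟨hvX, hv0⟩ := (hsd v).1 hv
        have := h1 v hvX
        show lev v - 1 < M
        omega
      · intro v hv
        obtain ⟨hvX, hv0⟩ := (hsd v).1 hv
        refine le_trans (Set.ncard_le_ncard ?_ (Set.toFinite _)) (h2 v hvX)
        rintro w ⟨hw, hvw, hlt⟩
        obtain ⟨hwX, hw0⟩ := (hsd w).1 hw
        have hlt' : lev w - 1 < lev v - 1 := hlt
        exact ⟨hwX, hvw, by omega⟩
      · intro i
        have : (X \ X.filter (fun v => lev v = 0)).filter (fun v => lev v - 1 = i) =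
            X.filter (fun v => lev v = i + 1) := by
          ext v
          rw [Finset.mem_filter, hsd, Finset.mem_filter]
          constructor
          · rintro ⟨⟨h4, h5⟩, h6⟩
            exact ⟨h4, by omega⟩
          · rintro ⟨h4, h5⟩
            exact ⟨⟨h4, by omega⟩, by omega⟩
        rw [this]
        exact h3 (i + 1)

/-- The treewidth structure of an induced subgraph. -/
lemma twOn_of_induce {V : Type} [Fintype V] [DecidableEq V] {G : SimpleGraph V} {lev : V → ℕ}
    {i : ℕ} (h : TreewidthLE 2 (G.induce {v | lev v = i})) :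
    TwOn G (Finset.univ.filter (fun v => lev v = i)) := by
  classical
  obtain ⟨T, rk, hGT, hinj, hT⟩ := h
  have hlev : ∀ v ∈ (Finset.univ.filter (fun v => lev v = i)), lev v = i :=
    fun v hv => (Finset.mem_filter.1 hv).2
  let em : {v | lev v = i} ↪ V := ⟨Subtype.val, Subtype.val_injective⟩
  have hmap : ∀ (v w : V) (hv : lev v = i) (hw : lev w = i),
      (T.map em).Adj v w ↔ T.Adj ⟨v, hv⟩ ⟨w, hw⟩ := by
    intro v w hv hw
    rw [SimpleGraph.map_adj]
    constructor
    · rintro ⟨x, y, hxy, rfl, rfl⟩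
      exact hxy
    · intro h
      exact ⟨_, _, h, rfl, rfl⟩
  let r : V → ℕ := fun v => if h : lev v = i then rk ⟨v, h⟩ else 0
  have hr : ∀ (v : V) (hv : lev v = i), r v = rk ⟨v, hv⟩ := by
    intro v hv
    simp only [r, hv, dif_pos]
  refine ⟨T.map em, r, ?_, ?_, ?_, ?_⟩
  · intro v hv w hw hvw
    rw [hmap v w (hlev v hv) (hlev w hw)]
    exact hGT hvw
  · intro v hv w hw hvw
    have hv' := hlev v (Finset.mem_coe.1 hv)
    have hw' := hlev w (Finset.mem_coe.1 hw)
    rw [hr v hv', hr w hw'] at hvw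
    exact congrArg Subtype.val (hinj hvw)
  · intro v hv W hW hW2
    have hv' := hlev v hv
    refine le_trans ?_ (hT ⟨v, hv'⟩).1
    rw [← Set.ncard_image_of_injective _ (Subtype.val_injective (p := fun v => v ∈ {v | lev v = i})),
      ← Set.ncard_coe_finset]
    refine Set.ncard_le_ncard ?_ (Set.toFinite _)
    intro w hw
    have hw1 := Finset.mem_coe.1 hw
    have hw' := hlev w (hW hw1)
    obtain ⟨h1, h2⟩ := hW2 w hw1
    rw [hmap v w hv' hw'] at h1
    rw [hr v hv', hr w hw'] at h2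
    exact ⟨⟨w, hw'⟩, ⟨h1, h2⟩, rfl⟩
  · intro v hv w hw w' hw' h1 h2 h3 h4 h5
    have hv0 := hlev v hv
    have hw0 := hlev w hw
    have hw0' := hlev w' hw'
    rw [hmap v w hv0 hw0] at h1
    rw [hr v hv0, hr w hw0] at h2
    rw [hmap v w' hv0 hw0'] at h3
    rw [hr v hv0, hr w' hw0'] at h4
    rw [hmap w w' hw0 hw0']
    exact (hT ⟨v, hv0⟩).2 _ _ h1 h2 h3 h4 (fun h => h5 (congrArg Subtype.val h))

end TwG

/-- `G` is layered with parameter `n`: the vertices have levels below `n`, every vertex has at most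
`n` neighbours of smaller level, and every level induces a graph of treewidth at most two. -/
def TwoTreeLayered {V : Type} (n : ℕ) (G : SimpleGraph V) : Prop :=
  ∃ lev : V → ℕ, (∀ v, lev v < n) ∧ (∀ v, {w | G.Adj v w ∧ lev w < lev v}.ncard ≤ n) ∧
    ∀ i, TreewidthLE 2 (G.induce {v | lev v = i})

/-- The hat guessing number is bounded on layered graphs with levels of treewidth at most two. -/
theorem hat_twoTreeLayered (n : ℕ) : ∃ q₀ : ℕ, ∀ (V : Type) [Fintype V] (G : SimpleGraph V),
    TwoTreeLayered n G → ∀ q : ℕ, (∃ s, IsWinning G q s) → q < q₀ := by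
  classical
  obtain ⟨q₀, hq₀⟩ := TwG.twLevels n n 1
  refine ⟨q₀ + 1, ?_⟩
  rintro V _ G ⟨lev, h1, h2, h3⟩ q hst
  by_contra hq
  refine Pair.not_winning (q₀ := q₀) ?_ (q := q) (by omega) (by omega) hst
  apply hq₀ G Finset.univ lev (fun v _ => h1 v)
  · intro v _
    refine le_trans (Set.ncard_le_ncard ?_ (Set.toFinite _)) (h2 v)
    rintro w ⟨_, hw⟩
    exact hw
  · intro i
    exact TwG.twOn_of_induce (h3 i)

end Pool.Agent.Lib.MP_994fee_co
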