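import Pool.Agent.Lib.MP_994fee_co.TwG.Ext19

/-!
# Elimination of the last vertex

The guesses of a vertex may depend on the colours of its neighbours, on its own list, and on the
blocks of its edges.
-/

namespace Pool.Agent.Lib.MP_994fee_co.TwG

open Finset

/-- A state of the game: colours, lists and blocks. -/
structure St (V : Type) where
  /-- the colours -/
  c : V → ℕ
  /-- the lists -/
  N : V → Finset ℕ
  /-- the blocks: `b u v` is the block of `u` on the edge between `u` and `v` -/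
  b : V → V → Finset ℕ

variable {V : Type}

/-- The vertex `v` cannot distinguish the states `σ` and `σ'`. -/
def Loc (T : SimpleGraph V) (A : Finset V) (v : V) (σ σ' : St V) : Prop :=
  σ.N v = σ'.N v ∧ ∀ u ∈ A, T.Adj v u →
    σ.c u = σ'.c u ∧ σ.b v u = σ'.b v u ∧ σ.b u v = σ'.b u v

/-- The sizes of the lists and of the blocks are right. -/
def Good (T : SimpleGraph V) (g s q : ℕ) (A : Finset V) (σ : St V) : Prop :=
  (∀ v ∈ A, σ.c v ∈ σ.N v ∧ (σ.N v).card = g + 1 ∧ σ.c v < q) ∧
    ∀ u ∈ A, ∀ v ∈ A, T.Adj u v → σ.N u ⊆ σ.b u v ∧ (σ.b u v).card ≤ s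

/-- The players are beaten on `A`. -/
def Beat (T : SimpleGraph V) (g s q : ℕ) (A : Finset V) : Prop :=
  ∀ h : V → St V → Finset ℕ, (∀ v ∈ A, ∀ σ σ', Loc T A v σ σ' → h v σ = h v σ') →
    (∀ v σ, (h v σ).card ≤ g) → ∃ σ, Good T g s q A σ ∧ ∀ v ∈ A, σ.c v ∉ h v σ

/-- The state with a new vertex `z`. -/
noncomputable def St.ext (σ : St V) (z : V) (f : ℕ) (G : Finset ℕ) (B C : V → Finset ℕ) : St V :=
  open Classical in
  ⟨fun v => if v = z then f else σ.c v, fun v => if v = z then G else σ.N v,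
    fun u v => if u = z then B v else if v = z then C u else σ.b u v⟩

theorem beat_step {T : SimpleGraph V} {g s q : ℕ} [DecidableEq V] {A : Finset V} {z : V}
    (hz : z ∉ A) (hA : Beat T g s q A) (h : V → St V → Finset ℕ)
    (hl : ∀ v ∈ insert z A, ∀ σ σ', Loc T (insert z A) v σ σ' → h v σ = h v σ')
    (hg : ∀ v σ, (h v σ).card ≤ g)
    (F : St V → ℕ) (G : St V → Finset ℕ) (B C : St V → V → Finset ℕ)
    (hloc : ∀ v ∈ A, T.Adj v z → ∀ σ σ', Loc T A v σ σ' →
      F σ = F σ' ∧ B σ v = B σ' v ∧ C σ v = C σ' v)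
    (hgood : ∀ σ, Good T g s q A σ → F σ ∈ G σ ∧ (G σ).card = g + 1 ∧ F σ < q ∧
      (∀ v ∈ A, T.Adj v z → G σ ⊆ B σ v ∧ (B σ v).card ≤ s ∧ σ.N v ⊆ C σ v ∧ (C σ v).card ≤ s) ∧
      F σ ∉ h z (σ.ext z (F σ) (G σ) (B σ) (C σ))) :
    ∃ σ, Good T g s q (insert z A) σ ∧ ∀ v ∈ insert z A, σ.c v ∉ h v σ := by
  have hne : ∀ v ∈ A, v ≠ z := fun v hv h => hz (h ▸ hv)
  obtain ⟨σ, hσ, hσ2⟩ := hA (fun v σ => h v (σ.ext z (F σ) ∅ (B σ) (C σ))) (by
    intro v hv σ σ' hL
    apply hl v (mem_insert_of_mem hv)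
    refine ⟨?_, ?_⟩
    · simp only [St.ext, if_neg (hne v hv)]
      exact hL.1
    · intro u hu hvu
      rcases mem_insert.1 hu with rfl | hu
      · obtain ⟨h1, h2, h3⟩ := hloc v hv hvu σ σ' hL
        simp only [St.ext, if_neg (hne v hv), if_true]
        exact ⟨h1, h3, h2⟩
      · simp only [St.ext, if_neg (hne v hv), if_neg (hne u hu)]
        exact hL.2 u hu hvu) (fun v σ => hg v _)
  obtain ⟨h1, h2, h3, h4, h5⟩ := hgood σ hσ
  refine ⟨σ.ext z (F σ) (G σ) (B σ) (C σ), ⟨?_, ?_⟩, ?_⟩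
  · intro v hv
    rcases mem_insert.1 hv with rfl | hv
    · simp only [St.ext, if_true]
      exact ⟨h1, h2, h3⟩
    · simp only [St.ext, if_neg (hne v hv)]
      exact hσ.1 v hv
  · intro u hu v hv huv
    rcases mem_insert.1 hu with hu' | hu'
    · subst hu'
      rcases mem_insert.1 hv with hv' | hv'
      · exact absurd hv' (huv.ne').symm.symm
      · simp only [St.ext, if_true]
        exact ⟨(h4 v hv' huv.symm).1, (h4 v hv' huv.symm).2.1⟩
    · rcases mem_insert.1 hv with hv' | hv'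
      · subst hv'
        simp only [St.ext, if_true, if_neg (hne u hu')]
        exact ⟨(h4 u hu' huv).2.2.1, (h4 u hu' huv).2.2.2⟩
      · simp only [St.ext, if_neg (hne u hu'), if_neg (hne v hv')]
        exact hσ.2 u hu' v hv' huv
  · intro v hv
    rcases mem_insert.1 hv with hv' | hv'
    · subst hv'
      simp only [St.ext, if_true]
      exact h5
    · have h6 := hσ2 v hv'
      have h7 : h v (σ.ext z (F σ) (G σ) (B σ) (C σ)) = h v (σ.ext z (F σ) ∅ (B σ) (C σ)) := by
        apply hl v hv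
        refine ⟨?_, fun u _ _ => ⟨rfl, rfl, rfl⟩⟩
        simp only [St.ext, if_neg (hne v hv')]
      rw [h7]
      simp only [St.ext, if_neg (hne v hv')] at h6 ⊢
      exact h6

theorem beat_insert {T : SimpleGraph V} {g q : ℕ} (hE : ExtP g (bs g) q) [DecidableEq V]
    {A : Finset V} {z : V} (hz : z ∉ A) (hA : Beat T g (bs g) q A)
    (hc : ∀ S ⊆ A, (∀ v ∈ S, T.Adj z v) → S.card ≤ 2)
    (hadj : ∀ x ∈ A, ∀ y ∈ A, T.Adj z x → T.Adj z y → x ≠ y → T.Adj x y) :
    Beat T g (bs g) q (insert z A) := by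
  classical
  intro h hl hg
  have hs1 : g + 1 ≤ bs g := by
    unfold bs
    have h1 : 1 ≤ (2 * (g + 1) + 1) ^ 6 := Nat.one_le_pow _ _ (by omega)
    have h2 : g ≤ g ^ 3 := Nat.le_self_pow (by norm_num) g
    have h3 : g ≤ 8 * (2 * (g + 1) + 1) ^ 6 * g ^ 3 := by
      calc g ≤ g ^ 3 := h2
        _ = 1 * g ^ 3 := (one_mul _).symm
        _ ≤ 8 * (2 * (g + 1) + 1) ^ 6 * g ^ 3 := Nat.mul_le_mul_right _ (by omega)
    omega
  have hne : ∀ v ∈ A, v ≠ z := fun v hv h => hz (h ▸ hv)
  have h0r : (0 : ℕ) ∈ range (g + 1) := mem_range.2 (Nat.succ_pos g)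
  obtain ⟨k, hk⟩ : ∃ k, (A.filter (fun v => T.Adj z v)).card = k := ⟨_, rfl⟩
  have hk3 : k ≤ 2 := by
    rw [← hk]
    exact hc _ (Finset.filter_subset _ _) (fun v hv => (mem_filter.1 hv).2)
  have hk2 : k = 0 ∨ k = 1 ∨ k = 2 := by omega
  rcases hk2 with rfl | rfl | rfl
  · -- no older neighbour
    have hno : ∀ v ∈ A, ¬ T.Adj z v := by
      intro v hv hzv
      have : v ∈ A.filter (fun v => T.Adj z v) := mem_filter.2 ⟨hv, hzv⟩
      rw [Finset.card_eq_zero.1 hk] at this
      exact absurd this (notMem_empty v)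
    obtain ⟨f, A', B', N', hE'⟩ := hE (range (g + 1)) (range (g + 1))
      (fun _ _ _ _ N => h z ⟨fun _ => 0, fun _ => N, fun _ _ => ∅⟩) (fun _ _ _ _ _ => hg _ _)
    obtain ⟨hf, _, _, hN⟩ := hE' (by rw [card_range]; exact hs1) (by rw [card_range]; exact hs1)
    obtain ⟨h1, h2, _, _, h5⟩ := hN 0 (range (g + 1)) 0 (range (g + 1)) h0r h0r
      (Finset.Subset.refl _) (Finset.Subset.refl _) (card_range _) (card_range _)
    refine beat_step hz hA h hl hg (fun _ => f)
      (fun _ => N' 0 (range (g + 1)) 0 (range (g + 1))) (fun _ _ => ∅) (fun _ _ => ∅)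
      (fun v hv hvz => absurd hvz.symm (hno v hv)) ?_
    intro σ _
    refine ⟨h1, h2, hf, fun v hv hvz => absurd hvz.symm (hno v hv), ?_⟩
    have h6 : h z (σ.ext z f (N' 0 (range (g + 1)) 0 (range (g + 1))) (fun _ => ∅) (fun _ => ∅)) =
        h z ⟨fun _ => 0, fun _ => N' 0 (range (g + 1)) 0 (range (g + 1)), fun _ _ => ∅⟩ := by
      apply hl z (mem_insert_self z A)
      refine ⟨by simp only [St.ext, if_true], ?_⟩
      intro u hu hzu
      rcases mem_insert.1 hu with hu | hu
      · exact absurd hu (hzu.ne')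
      · exact absurd hzu (hno u hu)
    rw [h6]
    exact h5
  · -- one older neighbour
    obtain ⟨x, hx⟩ := Finset.card_eq_one.1 hk
    have hxA : x ∈ A ∧ T.Adj z x := by
      have : x ∈ A.filter (fun v => T.Adj z v) := by rw [hx]; exact mem_singleton_self x
      exact mem_filter.1 this
    have hno : ∀ v ∈ A, T.Adj z v → v = x := by
      intro v hv hzv
      have : v ∈ A.filter (fun v => T.Adj z v) := mem_filter.2 ⟨hv, hzv⟩
      rw [hx] at this
      exact mem_singleton.1 this
    have hE1 := fun T0 : Finset ℕ => hE T0 (range (g + 1))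
      (fun τ _ X _ N => h z ⟨fun _ => τ, fun _ => N, fun u _ => if u = z then X else T0⟩)
      (fun _ _ _ _ _ => hg _ _)
    choose f A' B' N' hE' using hE1
    refine beat_step hz hA h hl hg (fun σ => f (σ.N x))
      (fun σ => N' (σ.N x) (σ.c x) (σ.N x) 0 (range (g + 1))) (fun σ _ => A' (σ.N x) (σ.N x) 0)
      (fun σ _ => σ.N x) ?_ ?_
    · intro v hv hvz σ σ' hL
      have hvx := hno v hv hvz.symm
      subst hvx
      simp only [hL.1]
      exact ⟨trivial, trivial, trivial⟩
    · intro σ hσ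
      obtain ⟨hx1, hx2, hx3⟩ := hσ.1 x hxA.1
      obtain ⟨hf, hA1, _, hN⟩ := hE' (σ.N x) (by rw [hx2]; exact hs1)
        (by rw [card_range]; exact hs1)
      obtain ⟨h1, h2, h3, _, h5⟩ := hN (σ.c x) (σ.N x) 0 (range (g + 1)) hx1 h0r
        (Finset.Subset.refl _) (Finset.Subset.refl _) hx2 (card_range _)
      refine ⟨h1, h2, hf, ?_, ?_⟩
      · intro v hv hvz
        have hvx := hno v hv hvz.symm
        subst hvx
        exact ⟨h3, hA1 _ _, Finset.Subset.refl _, by rw [hx2]; exact hs1⟩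
      · have h6 : h z (σ.ext z (f (σ.N x)) (N' (σ.N x) (σ.c x) (σ.N x) 0 (range (g + 1)))
            (fun _ => A' (σ.N x) (σ.N x) 0) (fun _ => σ.N x)) =
            h z ⟨fun _ => σ.c x, fun _ => N' (σ.N x) (σ.c x) (σ.N x) 0 (range (g + 1)),
              fun u _ => if u = z then A' (σ.N x) (σ.N x) 0 else σ.N x⟩ := by
          apply hl z (mem_insert_self z A)
          refine ⟨by simp only [St.ext, if_true], ?_⟩
          intro u hu hzu
          rcases mem_insert.1 hu with hu | hu
          · exact absurd hu (hzu.ne')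
          · have hux := hno u hu hzu
            subst hux
            simp only [St.ext, if_true, if_neg (hne u hu)]
            exact ⟨trivial, trivial, trivial⟩
        rw [h6]
        exact h5
  · -- two older neighbours
    obtain ⟨x, y, hxy, hx⟩ := Finset.card_eq_two.1 hk
    have hxA : x ∈ A ∧ T.Adj z x := by
      have : x ∈ A.filter (fun v => T.Adj z v) := by rw [hx]; exact mem_insert_self x _
      exact mem_filter.1 this
    have hyA : y ∈ A ∧ T.Adj z y := by
      have : y ∈ A.filter (fun v => T.Adj z v) := by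
        rw [hx]
        exact mem_insert_of_mem (mem_singleton_self y)
      exact mem_filter.1 this
    have hno : ∀ v ∈ A, T.Adj z v → v = x ∨ v = y := by
      intro v hv hzv
      have : v ∈ A.filter (fun v => T.Adj z v) := mem_filter.2 ⟨hv, hzv⟩
      rw [hx, mem_insert, mem_singleton] at this
      exact this
    have hTxy : T.Adj x y := hadj x hxA.1 y hyA.1 hxA.2 hyA.2 hxy
    have hyx : y ≠ x := hxy.symm
    have hE1 := fun T0 S0 : Finset ℕ => hE T0 S0
      (fun τ c X Y N => h z ⟨fun v => if v = x then τ else c, fun _ => N,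
        fun u v => if u = z then (if v = x then X else Y) else if u = x then T0 else S0⟩)
      (fun _ _ _ _ _ => hg _ _)
    choose f A' B' N' hE' using hE1
    refine beat_step hz hA h hl hg (fun σ => f (σ.b x y) (σ.b y x))
      (fun σ => N' (σ.b x y) (σ.b y x) (σ.c x) (σ.N x) (σ.c y) (σ.N y))
      (fun σ v => if v = x then A' (σ.b x y) (σ.b y x) (σ.N x) (σ.c y)
        else B' (σ.b x y) (σ.b y x) (σ.c x) (σ.N y))
      (fun σ v => if v = x then σ.b x y else σ.b y x) ?_ ?_
    · intro v hv hvz σ σ' hL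
      rcases hno v hv hvz.symm with hvx | hvx
      · subst hvx
        obtain ⟨h1, h2, h3⟩ := hL.2 y hyA.1 hTxy
        simp only [if_true, hL.1, h1, h2, h3]
        exact ⟨trivial, trivial, trivial⟩
      · subst hvx
        obtain ⟨h1, h2, h3⟩ := hL.2 x hxA.1 hTxy.symm
        simp only [if_neg hyx, hL.1, h1, h2, h3]
        exact ⟨trivial, trivial, trivial⟩
    · intro σ hσ
      obtain ⟨hx1, hx2, hx3⟩ := hσ.1 x hxA.1
      obtain ⟨hy1, hy2, hy3⟩ := hσ.1 y hyA.1
      obtain ⟨hb1, hb2⟩ := hσ.2 x hxA.1 y hyA.1 hTxy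
      obtain ⟨hb3, hb4⟩ := hσ.2 y hyA.1 x hxA.1 hTxy.symm
      obtain ⟨hf, hA1, hB1, hN⟩ := hE' (σ.b x y) (σ.b y x) hb2 hb4
      obtain ⟨h1, h2, h3, h4, h5⟩ := hN (σ.c x) (σ.N x) (σ.c y) (σ.N y) hx1 hy1 hb1 hb3 hx2 hy2
      refine ⟨h1, h2, hf, ?_, ?_⟩
      · intro v hv hvz
        rcases hno v hv hvz.symm with hvx | hvx
        · subst hvx
          simp only [if_true]
          exact ⟨h3, hA1 _ _, hb1, hb2⟩
        · subst hvx
          simp only [if_neg hyx]
          exact ⟨h4, hB1 _ _, hb3, hb4⟩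
      · have h6 : h z (σ.ext z (f (σ.b x y) (σ.b y x))
            (N' (σ.b x y) (σ.b y x) (σ.c x) (σ.N x) (σ.c y) (σ.N y))
            (fun v => if v = x then A' (σ.b x y) (σ.b y x) (σ.N x) (σ.c y)
              else B' (σ.b x y) (σ.b y x) (σ.c x) (σ.N y))
            (fun v => if v = x then σ.b x y else σ.b y x)) =
            h z ⟨fun v => if v = x then σ.c x else σ.c y,
              fun _ => N' (σ.b x y) (σ.b y x) (σ.c x) (σ.N x) (σ.c y) (σ.N y),
              fun u v => if u = z then (if v = x then A' (σ.b x y) (σ.b y x) (σ.N x) (σ.c y)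
                else B' (σ.b x y) (σ.b y x) (σ.c x) (σ.N y)) else
                if u = x then σ.b x y else σ.b y x⟩ := by
          apply hl z (mem_insert_self z A)
          refine ⟨by simp only [St.ext, if_true], ?_⟩
          intro u hu hzu
          rcases mem_insert.1 hu with hu | hu
          · exact absurd hu (hzu.ne')
          · rcases hno u hu hzu with hux | hux
            · subst hux
              simp only [St.ext, if_true, if_neg (hne u hu)]
              exact ⟨trivial, trivial, trivial⟩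
            · subst hux
              simp only [St.ext, if_true, if_neg (hne u hu), if_neg hyx]
              exact ⟨trivial, trivial, trivial⟩
        rw [h6]
        exact h5

end Pool.Agent.Lib.MP_994fee_co.TwG
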