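import Pool.Agent.Lib.MP_994fee_co.TwG.Drop19
import Pool.Agent.Lib.MP_994fee_co.Ramsey

/-!
# The extension lemma for the palette of all natural numbers
-/

namespace Pool.Agent.Lib.MP_994fee_co.TwG

open Finset

/-- The guesses: they may depend on the colours of the two older neighbours, on the two label
blocks and on the list. -/
abbrev Kap (s : ℕ) := Fin s → Fin s → Finset ℕ → Finset ℕ → Finset ℕ → Finset ℕ

/-- Solvability of the extension problem with the palette `L`. -/
def Sol (g s : ℕ) (κ : Kap s) (L : ℕ → Prop) : Prop :=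
  ∃ (f : ℕ) (A : Finset (Fin s) → Fin s → Finset ℕ) (B : Fin s → Finset (Fin s) → Finset ℕ)
    (N : Fin s → Finset (Fin s) → Fin s → Finset (Fin s) → Finset ℕ), L f ∧
    (∀ P c, (A P c).card ≤ s ∧ ∀ z ∈ A P c, L z) ∧ (∀ τ Q, (B τ Q).card ≤ s ∧ ∀ z ∈ B τ Q, L z) ∧
    ∀ τ P c Q, τ ∈ P → c ∈ Q → P.card = g + 1 → Q.card = g + 1 →
      f ∈ N τ P c Q ∧ (N τ P c Q).card = g + 1 ∧ N τ P c Q ⊆ A P c ∧ N τ P c Q ⊆ B τ Q ∧
        f ∉ κ τ c (A P c) (B τ Q) (N τ P c Q)

theorem exists_shift {s : ℕ} (κ : Kap s) (n : ℕ) : ∃ p : ℕ → ℕ, StrictMono p ∧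
    ∀ τ c (X Y Z : Finset ℕ) (k t : ℕ), X ⊆ range n → Y ⊆ range n → Z ⊆ range n → k < n →
      (p (k + t) ∈ κ τ c (X.image (fun x => p (x + t))) (Y.image (fun x => p (x + t)))
        (Z.image (fun x => p (x + t))) ↔ p k ∈ κ τ c (X.image p) (Y.image p) (Z.image p)) := by
  classical
  obtain ⟨p, hp, h⟩ := stRamsey
    (fun n => Fin s → Fin s → Finset (Fin n) → Finset (Fin n) → Finset (Fin n) → Finset (Fin n))
    (fun n => inferInstance)
    (fun n u τ c X Y Z => univ.filter (fun k => u k ∈ κ τ c (X.image u) (Y.image u) (Z.image u))) n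
  refine ⟨p, hp, ?_⟩
  intro τ c X Y Z k t hX hY hZ hk
  have h1 := h n le_rfl (fun j : Fin n => (j : ℕ) + t) (fun j : Fin n => (j : ℕ))
    (by intro i j hij; exact Nat.add_lt_add_right hij t) (by intro i j hij; exact hij)
  have key : ∀ (W : Finset ℕ) (t : ℕ), W ⊆ range n →
      (univ.filter (fun j : Fin n => (j : ℕ) ∈ W)).image (p ∘ fun j : Fin n => (j : ℕ) + t)
        = W.image (fun x => p (x + t)) := by
    intro W t hW
    ext z
    simp only [mem_image, mem_filter, mem_univ, true_and, Function.comp]
    constructor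
    · rintro ⟨j, hj, rfl⟩
      exact ⟨j, hj, rfl⟩
    · rintro ⟨x, hx, rfl⟩
      exact ⟨⟨x, mem_range.1 (hW hx)⟩, hx, rfl⟩
  have h2 := congrFun (congrFun (congrFun (congrFun (congrFun h1 τ) c)
    (univ.filter (fun j : Fin n => (j : ℕ) ∈ X))) (univ.filter (fun j : Fin n => (j : ℕ) ∈ Y)))
    (univ.filter (fun j : Fin n => (j : ℕ) ∈ Z))
  have key0 : ∀ (W : Finset ℕ), W ⊆ range n →
      (univ.filter (fun j : Fin n => (j : ℕ) ∈ W)).image (p ∘ fun j : Fin n => (j : ℕ))
        = W.image p := by
    intro W hW
    have := key W 0 hW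
    simpa using this
  have h3 := Finset.ext_iff.1 h2 ⟨k, hk⟩
  simp only [mem_filter, mem_univ, true_and] at h3
  rw [key X t hX, key Y t hY, key Z t hZ, key0 X hX, key0 Y hY, key0 Z hZ] at h3
  exact h3

/-- The block size. -/
def bs (g : ℕ) : ℕ := 8 * (2 * (g + 1) + 1) ^ 6 * g ^ 3 + 1

theorem core_inf (g : ℕ) (κ : Kap (bs g)) (hκ : ∀ τ c A B N, (κ τ c A B N).card ≤ g) :
    Sol g (bs g) κ (fun _ => True) := by
  classical
  have hs : 8 * (2 * (g + 1) + 1) ^ 6 * g ^ 3 < bs g := Nat.lt_succ_self _
  generalize bs g = s at κ hs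
  obtain ⟨p, hp, hsh⟩ := exists_shift κ (2 * s + 1)
  let AI : Fin s → Finset ℕ := fun i => Ico (s - i) (2 * s - i)
  have hAIr : ∀ i, AI i ⊆ range (2 * s + 1) := by
    intro i x hx
    have := mem_Ico.1 hx
    exact mem_range.2 (by omega)
  let Bad : Fin s → Fin s → Fin s → Fin s → Prop := fun τ c i j =>
    ∀ N : Finset ℕ, N ⊆ AI i → N ⊆ AI j → N.card = g + 1 → s ∈ N →
      p s ∈ κ τ c ((AI i).image p) ((AI j).image p) (N.image p)
  have hBad : ∀ τ c, ∀ F : Finset (Fin s × Fin s), (∀ q ∈ F, Bad τ c q.1 q.2) →
      F.card ≤ 2 * g * s := by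
    intro τ c F hF
    have h1 : F.card ≤ g * (range (2 * s)).card := by
      refine Finset.card_le_mul_card_image_of_maps_to
        (f := fun q : Fin s × Fin s => (q.1 : ℕ) + (s - (q.2 : ℕ))) ?_ g ?_
      · intro q _
        have h2 := q.1.2
        exact mem_range.2 (by omega)
      · intro d _
        by_contra hcon
        push Not at hcon
        obtain ⟨F', hF', hF'c⟩ := Finset.exists_subset_card_eq (Nat.succ_le_of_lt hcon)
        change F'.card = g + 1 at hF'c
        have hne : F'.Nonempty := by
          rw [← Finset.card_pos]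
          omega
        obtain ⟨⟨i0, j0⟩, h0, hmax⟩ := Finset.exists_max_image F' (fun q => (q.1 : ℕ)) hne
        have hd : ∀ q ∈ F', (q.1 : ℕ) + (s - (q.2 : ℕ)) = d := fun q hq =>
          (mem_filter.1 (hF' hq)).2
        have hd0 := hd _ h0
        let Ns : Finset ℕ := F'.image (fun q => s - i0 + q.1)
        have hNs : Ns.card = g + 1 := by
          rw [← hF'c]
          apply Finset.card_image_of_injOn
          intro q hq q' hq' hqq
          have h2 := hd _ hq
          have h3 := hd _ hq'
          have h4 := q.2.2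
          have h5 := q'.2.2
          simp only at hqq
          have h6 : (q.1 : ℕ) = q'.1 := by omega
          have h7 : (q.2 : ℕ) = q'.2 := by omega
          exact Prod.ext (Fin.ext h6) (Fin.ext h7)
        have hall : ∀ q ∈ F', p (s - i0 + q.1) ∈
            κ τ c ((AI i0).image p) ((AI j0).image p) (Ns.image p) := by
          intro q hq
          have hq1 := hmax q hq
          simp only at hq1
          have hqd := hd q hq
          simp only at hd0
          have hi0 := i0.2
          have hj0 := j0.2
          have hqi := q.1.2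
          have hqj := q.2.2
          obtain ⟨t, ht⟩ : ∃ t, (i0 : ℕ) = q.1 + t := ⟨i0 - q.1, by omega⟩
          have htj : (j0 : ℕ) = q.2 + t := by omega
          have hNr : Ns ⊆ range (2 * s + 1) := by
            intro x hx
            obtain ⟨q', hq', rfl⟩ := mem_image.1 hx
            have := q'.1.2
            exact mem_range.2 (by omega)
          have h2 := hsh τ c (AI i0) (AI j0) Ns (s - i0 + q.1) t (hAIr i0) (hAIr j0) hNr (by omega)
          rw [← h2]
          have himg : ∀ W : Finset ℕ, (W.image (fun x => x + t)).image p =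
              W.image (fun x => p (x + t)) := by
            intro W
            rw [Finset.image_image]
            rfl
          have h3 : (AI i0).image (fun x => p (x + t)) = (AI q.1).image p := by
            have : AI q.1 = (AI i0).image (fun x => x + t) := by
              ext x
              simp only [AI, mem_Ico, mem_image]
              constructor
              · intro hx
                exact ⟨x - t, by omega, by omega⟩
              · rintro ⟨y, hy, rfl⟩
                omega
            rw [this, himg]
          have h4 : (AI j0).image (fun x => p (x + t)) = (AI q.2).image p := by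
            have : AI q.2 = (AI j0).image (fun x => x + t) := by
              ext x
              simp only [AI, mem_Ico, mem_image]
              constructor
              · intro hx
                exact ⟨x - t, by omega, by omega⟩
              · rintro ⟨y, hy, rfl⟩
                omega
            rw [this, himg]
          have h5 : Ns.image (fun x => p (x + t)) = (Ns.image (fun x => x + t)).image p :=
            (himg Ns).symm
          have h6 : s - (i0 : ℕ) + q.1 + t = s := by omega
          rw [h3, h4, h5, h6]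
          apply hF q (mem_filter.1 (hF' hq)).1
          · intro x hx
            obtain ⟨y, hy, rfl⟩ := mem_image.1 hx
            obtain ⟨q', hq', rfl⟩ := mem_image.1 hy
            have h7 := hmax q' hq'
            simp only at h7
            have h8 := q'.1.2
            simp only [AI, mem_Ico]
            omega
          · intro x hx
            obtain ⟨y, hy, rfl⟩ := mem_image.1 hx
            obtain ⟨q', hq', rfl⟩ := mem_image.1 hy
            have h7 := hmax q' hq'
            simp only at h7
            have h8 := q'.1.2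
            have h9 := q'.2.2
            have h10 := hd q' hq'
            simp only [AI, mem_Ico]
            omega
          · rw [Finset.card_image_of_injective _ (add_left_injective t), hNs]
          · exact mem_image.2 ⟨s - i0 + q.1, mem_image.2 ⟨q, hq, rfl⟩, h6⟩
        have hsub : Ns.image p ⊆ κ τ c ((AI i0).image p) ((AI j0).image p) (Ns.image p) := by
          intro x hx
          obtain ⟨y, hy, rfl⟩ := mem_image.1 hx
          obtain ⟨q, hq, rfl⟩ := mem_image.1 hy
          exact hall q hq
        have h11 := Finset.card_le_card hsub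
        rw [Finset.card_image_of_injective _ hp.injective, hNs] at h11
        have h12 := hκ τ c ((AI i0).image p) ((AI j0).image p) (Ns.image p)
        omega
    rw [card_range] at h1
    calc F.card ≤ g * (2 * s) := h1
      _ = 2 * g * s := by ring
  obtain ⟨X, Y, hXY⟩ := exists_choice (S := Fin s) (T := Fin s) g s (g + 1)
    (by rw [Fintype.card_fin]) (by rw [Fintype.card_fin]) hs Bad hBad
  have hN : ∀ (τ : Fin s) (P : Finset (Fin s)) (c : Fin s) (Q : Finset (Fin s)), ∃ N : Finset ℕ,
      τ ∈ P → c ∈ Q → P.card = g + 1 → Q.card = g + 1 →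
      N ⊆ AI (X P c) ∧ N ⊆ AI (Y τ Q) ∧ N.card = g + 1 ∧ s ∈ N ∧
      p s ∉ κ τ c ((AI (X P c)).image p) ((AI (Y τ Q)).image p) (N.image p) := by
    intro τ P c Q
    by_cases h : τ ∈ P ∧ c ∈ Q ∧ P.card = g + 1 ∧ Q.card = g + 1
    · obtain ⟨h1, h2, h3, h4⟩ := h
      have h5 := hXY P Q h3.le h4.le τ h1 c h2
      simp only [Bad] at h5
      push Not at h5
      obtain ⟨N, h6, h7, h8, h9, h10⟩ := h5
      exact ⟨N, fun _ _ _ _ => ⟨h6, h7, h8, h9, h10⟩⟩
    · exact ⟨∅, fun h1 h2 h3 h4 => absurd ⟨h1, h2, h3, h4⟩ h⟩
  choose N hN using hN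
  refine ⟨p s, fun P c => (AI (X P c)).image p, fun τ Q => (AI (Y τ Q)).image p,
    fun τ P c Q => (N τ P c Q).image p, trivial, ?_, ?_, ?_⟩
  · intro P c
    refine ⟨?_, fun _ _ => trivial⟩
    rw [Finset.card_image_of_injective _ hp.injective]
    simp only [AI, Nat.card_Ico]
    omega
  · intro τ Q
    refine ⟨?_, fun _ _ => trivial⟩
    rw [Finset.card_image_of_injective _ hp.injective]
    simp only [AI, Nat.card_Ico]
    omega
  · intro τ P c Q h1 h2 h3 h4
    obtain ⟨h5, h6, h7, h8, h9⟩ := hN τ P c Q h1 h2 h3 h4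
    refine ⟨mem_image_of_mem p h8, ?_, Finset.image_subset_image h5, Finset.image_subset_image h6, h9⟩
    rw [Finset.card_image_of_injective _ hp.injective, h7]

end Pool.Agent.Lib.MP_994fee_co.TwG
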