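import Mathlib

/-!
# Selection of candidate offsets (treewidth two with several guesses)
-/

namespace Pool.Agent.Lib.MP_994fee_co.TwG

theorem card_fix_mul {I : Type} [Fintype I] [DecidableEq I] (s : ℕ) (J : Finset I) (v : I → Fin s) :
    (Fintype.piFinset (fun i => if i ∈ J then ({v i} : Finset (Fin s)) else Finset.univ)).card
      * s ^ J.card = s ^ Fintype.card I := by
  have h1 : s ^ J.card = ∏ i : I, (if i ∈ J then s else 1) := by
    rw [Finset.prod_ite_mem, Finset.univ_inter, Finset.prod_const]
  rw [Fintype.card_piFinset, h1, ← Finset.prod_mul_distrib]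
  have h2 : ∀ i : I, (if i ∈ J then ({v i} : Finset (Fin s)) else Finset.univ).card
      * (if i ∈ J then s else 1) = s := by
    intro i
    split_ifs
    · simp
    · simp
  rw [Finset.prod_congr rfl (fun i _ => h2 i), Finset.prod_const, Finset.card_univ]

/-- For each pair `(τ, c)` a sparse relation of offsets; candidates can be chosen on the lines such
that no relation has three entries in general position among the candidates. -/
theorem exists_sel {S T : Type} [Fintype S] [Fintype T] (g s a : ℕ)
    (hS : Fintype.card S ≤ s) (hT : Fintype.card T ≤ s) (hs : 8 * a ^ 6 * g ^ 3 < s)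
    (Bad : T → S → Fin s → Fin s → Prop)
    (hBad : ∀ τ c, ∀ F : Finset (Fin s × Fin s), (∀ p ∈ F, Bad τ c p.1 p.2) → F.card ≤ 2 * g * s) :
    ∃ (x : S → Fin a → Fin s) (y : T → Fin a → Fin s), ∀ τ c, ¬ ∃ k l : Fin 3 → Fin a,
      Function.Injective k ∧ Function.Injective l ∧ ∀ r, Bad τ c (x c (k r)) (y τ (l r)) := by
  classical
  have hs0 : 0 < s := by omega
  let I := (S × Fin a) ⊕ (T × Fin a)
  let BS : T → S → Finset (Fin s × Fin s) := fun τ c =>
    Finset.univ.filter (fun p => Bad τ c p.1 p.2)
  have hBS : ∀ τ c, (BS τ c).card ≤ 2 * g * s := by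
    intro τ c
    refine hBad τ c _ ?_
    intro p hp
    exact (Finset.mem_filter.1 hp).2
  let K := Fin 3 → Fin a
  let J : T × S × K × K → Finset I := fun q =>
    (Finset.univ.image (fun r => (Sum.inl (q.2.1, q.2.2.1 r) : I))) ∪
    (Finset.univ.image (fun r => (Sum.inr (q.1, q.2.2.2 r) : I)))
  have hJ : ∀ q : T × S × K × K, Function.Injective q.2.2.1 → Function.Injective q.2.2.2 →
      (J q).card = 6 := by
    intro q h1 h2
    rw [Finset.card_union_of_disjoint, Finset.card_image_of_injective, Finset.card_image_of_injective]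
    · simp
    · intro r r' h
      have h3 := Sum.inr.inj h
      exact h2 (Prod.mk.inj h3).2
    · intro r r' h
      have h3 := Sum.inl.inj h
      exact h1 (Prod.mk.inj h3).2
    · rw [Finset.disjoint_left]
      intro z hz hz2
      obtain ⟨r, _, rfl⟩ := Finset.mem_image.1 hz
      obtain ⟨r', _, h⟩ := Finset.mem_image.1 hz2
      exact absurd h (by simp)
  -- the value vector of the six coordinates
  let Z : T × S × K × K → (Fin 3 → Fin s × Fin s) → Finset (I → Fin s) := fun q e =>
    Finset.univ.filter (fun z => ∀ r, z (Sum.inl (q.2.1, q.2.2.1 r)) = (e r).1 ∧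
      z (Sum.inr (q.1, q.2.2.2 r)) = (e r).2)
  have hZ : ∀ q : T × S × K × K, ∀ e, Function.Injective q.2.2.1 → Function.Injective q.2.2.2 →
      (Z q e).card * s ^ 6 ≤ s ^ Fintype.card I := by
    intro q e h1 h2
    rcases (Z q e).eq_empty_or_nonempty with h0 | ⟨z0, hz0⟩
    · rw [h0]
      simp
    · have h3 : Z q e ⊆ Fintype.piFinset (fun i => if i ∈ J q then ({z0 i} : Finset (Fin s))
          else Finset.univ) := by
        intro z hz
        rw [Fintype.mem_piFinset]
        intro i
        split_ifs with hi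
        · rw [Finset.mem_singleton]
          have hz1 := (Finset.mem_filter.1 hz).2
          have hz2 := (Finset.mem_filter.1 hz0).2
          rcases Finset.mem_union.1 hi with hi | hi
          · obtain ⟨r, _, rfl⟩ := Finset.mem_image.1 hi
            rw [(hz1 r).1, (hz2 r).1]
          · obtain ⟨r, _, rfl⟩ := Finset.mem_image.1 hi
            rw [(hz1 r).2, (hz2 r).2]
        · exact Finset.mem_univ _
      have h4 := card_fix_mul s (J q) z0
      rw [hJ q h1 h2] at h4
      rw [← h4]
      exact Nat.mul_le_mul_right _ (Finset.card_le_card h3)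
  let W : Finset (I → Fin s) := Finset.univ.biUnion (fun q : T × S × K × K =>
    (Fintype.piFinset (fun _ : Fin 3 => BS q.1 q.2.1)).biUnion (fun e =>
      if Function.Injective q.2.2.1 ∧ Function.Injective q.2.2.2 then Z q e else ∅))
  have hW : W.card * s ^ 6 < s ^ Fintype.card I * s ^ 6 := by
    have h1 : W.card * s ^ 6 ≤ ∑ q : T × S × K × K,
        ∑ e ∈ Fintype.piFinset (fun _ : Fin 3 => BS q.1 q.2.1), s ^ Fintype.card I := by
      calc W.card * s ^ 6 ≤ (∑ q : T × S × K × K,
            ∑ e ∈ Fintype.piFinset (fun _ : Fin 3 => BS q.1 q.2.1),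
              (if Function.Injective q.2.2.1 ∧ Function.Injective q.2.2.2 then Z q e
                else ∅).card) * s ^ 6 := by
            refine Nat.mul_le_mul_right _ ?_
            refine le_trans Finset.card_biUnion_le ?_
            exact Finset.sum_le_sum (fun q _ => Finset.card_biUnion_le)
        _ ≤ _ := by
            rw [Finset.sum_mul]
            refine Finset.sum_le_sum (fun q _ => ?_)
            rw [Finset.sum_mul]
            refine Finset.sum_le_sum (fun e _ => ?_)
            split_ifs with h
            · exact hZ q e h.1 h.2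
            · simp
    have h2 : (∑ q : T × S × K × K,
        ∑ e ∈ Fintype.piFinset (fun _ : Fin 3 => BS q.1 q.2.1), s ^ Fintype.card I) ≤
        (s * (s * (a ^ 3 * a ^ 3))) * ((2 * g * s) ^ 3 * s ^ Fintype.card I) := by
      calc _ ≤ ∑ _q : T × S × K × K, (2 * g * s) ^ 3 * s ^ Fintype.card I := by
            refine Finset.sum_le_sum (fun q _ => ?_)
            rw [Finset.sum_const, smul_eq_mul]
            refine Nat.mul_le_mul_right _ ?_
            rw [Fintype.card_piFinset]
            simp only [Finset.prod_const, Finset.card_univ, Fintype.card_fin]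
            exact Nat.pow_le_pow_left (hBS _ _) 3
        _ ≤ _ := by
            rw [Finset.sum_const, smul_eq_mul, Finset.card_univ]
            refine Nat.mul_le_mul_right _ ?_
            simp only [Fintype.card_prod, K, Fintype.card_fun, Fintype.card_fin]
            exact Nat.mul_le_mul hT (Nat.mul_le_mul_right _ hS)
    refine lt_of_le_of_lt (le_trans h1 h2) ?_
    have h3 : (s * (s * (a ^ 3 * a ^ 3))) * ((2 * g * s) ^ 3 * s ^ Fintype.card I)
        = (8 * a ^ 6 * g ^ 3) * (s ^ Fintype.card I * s ^ 5) := by ring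
    rw [h3]
    have h4 : s ^ Fintype.card I * s ^ 6 = s * (s ^ Fintype.card I * s ^ 5) := by ring
    rw [h4]
    exact Nat.mul_lt_mul_of_pos_right hs (Nat.mul_pos (Nat.pow_pos hs0) (Nat.pow_pos hs0))
  have hW2 : W.card < Fintype.card (I → Fin s) := by
    rw [Fintype.card_fun, Fintype.card_fin]
    exact Nat.lt_of_mul_lt_mul_right hW
  obtain ⟨z, hz⟩ : ∃ z, z ∉ W := by
    by_contra hcon
    push Not at hcon
    have h5 : W = Finset.univ := Finset.eq_univ_iff_forall.2 hcon
    rw [h5, Finset.card_univ] at hW2
    exact lt_irrefl _ hW2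
  refine ⟨fun c k => z (Sum.inl (c, k)), fun τ l => z (Sum.inr (τ, l)), ?_⟩
  rintro τ c ⟨k, l, hk, hl, h⟩
  apply hz
  refine Finset.mem_biUnion.2 ⟨(τ, c, k, l), Finset.mem_univ _, ?_⟩
  refine Finset.mem_biUnion.2 ⟨fun r => (z (Sum.inl (c, k r)), z (Sum.inr (τ, l r))), ?_, ?_⟩
  · rw [Fintype.mem_piFinset]
    intro r
    exact Finset.mem_filter.2 ⟨Finset.mem_univ _, h r⟩
  · rw [if_pos ⟨hk, hl⟩]
    exact Finset.mem_filter.2 ⟨Finset.mem_univ _, fun r => ⟨rfl, rfl⟩⟩

end Pool.Agent.Lib.MP_994fee_co.TwG
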